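import Pool.Agent.Lib.MP_ba0fa5_ag.AA.IfaceA
import Pool.Agent.Lib.MP_ba0fa5_ag.H92.Nmertp

/-!
MP_ba0fa5_ag, Theorem A: module MERTAP (Mertens in progressions).
-/

set_option autoImplicit false

namespace Pool.Agent.Lib.MP_ba0fa5_ag.AA.H38

open scoped Classical
open Finset

theorem mertap (hM : Nmert1Stmt) : MertapStmt := by
  intro q hq
  have : NeZero q := ⟨by omega⟩
  obtain ⟨C₀, hC₀⟩ := hM
  have hch : ∀ χ : DirichletCharacter ℂ q, ∃ C : ℝ, 0 ≤ C ∧ (χ ≠ 1 → ∀ N : ℕ,
      ‖∑ l ∈ (Icc 1 N).filter Nat.Prime, χ (l : ZMod q) * ((Real.log l / l : ℝ) : ℂ)‖ ≤ C) := by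
    intro χ
    by_cases h : χ = 1
    · exact ⟨0, le_rfl, fun h' => absurd h h'⟩
    · obtain ⟨C, hC⟩ := H92.sum_char_primes χ h
      exact ⟨C, (norm_nonneg _).trans (hC 0), fun _ => hC⟩
  choose K hK0 hK using hch
  set w : ℕ → ℝ := fun l => Real.log l / l with hw
  have hw0 : ∀ l, 0 ≤ w l := fun l => div_nonneg (Real.log_natCast_nonneg l) (Nat.cast_nonneg l)
  set CN : ℝ := ∑ l ∈ q.primeFactors, w l with hCN
  refine ⟨(C₀ + CN + ∑ χ, K χ) / q.totient, fun a y ha hy => ?_⟩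
  have hφ : (0 : ℝ) < q.totient := by exact_mod_cast Nat.totient_pos.mpr (by omega)
  set T := (Icc 1 y).filter Nat.Prime with hT
  have hau : IsUnit (a : ZMod q) := (ZMod.isUnit_iff_coprime a q).mpr ha
  -- orthogonality
  have h1 : ((q.totient * ∑ l ∈ (Icc 1 y).filter (fun l => l.Prime ∧ l ≡ a [MOD q]), w l : ℝ) : ℂ) =
      ∑ χ : DirichletCharacter ℂ q, χ (a : ZMod q)⁻¹ *
        ∑ l ∈ T, χ (l : ZMod q) * ((w l : ℝ) : ℂ) := by
    have h2 : ∀ l ∈ T, ∑ χ : DirichletCharacter ℂ q, χ (a : ZMod q)⁻¹ * (χ (l : ZMod q) *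
        ((w l : ℝ) : ℂ)) = if l ≡ a [MOD q] then ((q.totient * w l : ℝ) : ℂ) else 0 := by
      intro l _
      have h3 := DirichletCharacter.sum_char_inv_mul_char_eq ℂ hau (l : ZMod q)
      have h4 : (a : ZMod q) = (l : ZMod q) ↔ l ≡ a [MOD q] := by
        rw [ZMod.natCast_eq_natCast_iff]
        exact ⟨fun h => h.symm, fun h => h.symm⟩
      simp only [← mul_assoc]
      rw [← sum_mul, h3]
      by_cases h5 : l ≡ a [MOD q]
      · rw [if_pos h5, if_pos (h4.mpr h5)]
        push_cast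
        ring
      · rw [if_neg h5, if_neg (fun h => h5 (h4.mp h)), zero_mul]
    simp only [mul_sum]
    rw [sum_comm, sum_congr rfl h2, ← sum_filter, hT, filter_filter, Complex.ofReal_sum]
  -- principal character
  have h2 : ‖∑ l ∈ T, (1 : DirichletCharacter ℂ q) (l : ZMod q) * ((w l : ℝ) : ℂ) -
      ((Real.log y : ℝ) : ℂ)‖ ≤ C₀ + CN := by
    have h3 : ∀ l ∈ T, (1 : DirichletCharacter ℂ q) (l : ZMod q) * ((w l : ℝ) : ℂ) =
        ((w l - (if l ∈ q.primeFactors then w l else 0) : ℝ) : ℂ) := by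
      intro l hl
      have hlp : l.Prime := (mem_filter.1 hl).2
      by_cases h4 : l ∈ q.primeFactors
      · have h5 : ¬ IsUnit (l : ZMod q) := by
          rw [ZMod.isUnit_iff_coprime, hlp.coprime_iff_not_dvd, not_not]
          exact Nat.dvd_of_mem_primeFactors h4
        rw [if_pos h4, MulChar.map_nonunit _ h5]
        simp
      · have h5 : IsUnit (l : ZMod q) := by
          rw [ZMod.isUnit_iff_coprime, hlp.coprime_iff_not_dvd]
          intro h
          exact h4 (Nat.mem_primeFactors.mpr ⟨hlp, h, by omega⟩)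
        rw [if_neg h4, MulChar.one_apply h5]
        simp
    rw [sum_congr rfl h3, ← Complex.ofReal_sum, ← Complex.ofReal_sub, Complex.norm_real,
      sum_sub_distrib, Real.norm_eq_abs]
    have h5 := hC₀ y hy
    have h6 : 0 ≤ ∑ l ∈ T, (if l ∈ q.primeFactors then w l else 0) :=
      sum_nonneg fun l _ => by split_ifs <;> simp [hw0 l]
    have h7 : ∑ l ∈ T, (if l ∈ q.primeFactors then w l else 0) ≤ CN := by
      rw [← sum_filter, hCN]
      exact sum_le_sum_of_subset_of_nonneg (fun l hl => (mem_filter.1 hl).2) fun l _ _ => hw0 l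
    rw [abs_le] at h5 ⊢
    constructor <;> linarith
  -- the rest
  have h3 : ‖((q.totient * ∑ l ∈ (Icc 1 y).filter (fun l => l.Prime ∧ l ≡ a [MOD q]), w l : ℝ) : ℂ)
      - ((Real.log y : ℝ) : ℂ)‖ ≤ C₀ + CN + ∑ χ, K χ := by
    have hone : (1 : DirichletCharacter ℂ q) (a : ZMod q)⁻¹ = 1 := by
      apply MulChar.one_apply
      obtain ⟨u, hu⟩ := hau
      rw [← hu, ZMod.inv_coe_unit]
      exact Units.isUnit _
    rw [h1, ← add_sum_erase _ _ (mem_univ (1 : DirichletCharacter ℂ q)), hone, one_mul,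
      add_sub_right_comm]
    refine (norm_add_le _ _).trans (add_le_add h2 ?_)
    refine (norm_sum_le _ _).trans ?_
    calc _ ≤ ∑ χ ∈ univ.erase (1 : DirichletCharacter ℂ q), K χ := by
          refine sum_le_sum fun χ hχ => ?_
          rw [norm_mul]
          have h4 := hK χ (ne_of_mem_erase hχ) y
          exact (mul_le_of_le_one_left (norm_nonneg _) (χ.norm_le_one _)).trans h4
      _ ≤ _ := sum_le_sum_of_subset_of_nonneg (erase_subset _ _) fun χ _ _ => hK0 χ
  rw [← Complex.ofReal_sub, Complex.norm_real, Real.norm_eq_abs] at h3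
  rw [le_div_iff₀ hφ]
  calc |∑ l ∈ (Icc 1 y).filter (fun l => l.Prime ∧ l ≡ a [MOD q]), w l
        - Real.log y / q.totient| * q.totient
      = |(∑ l ∈ (Icc 1 y).filter (fun l => l.Prime ∧ l ≡ a [MOD q]), w l
        - Real.log y / q.totient) * q.totient| := by rw [abs_mul, abs_of_pos hφ]
    _ = |q.totient * ∑ l ∈ (Icc 1 y).filter (fun l => l.Prime ∧ l ≡ a [MOD q]), w l
        - Real.log y| := by
        congr 1
        field_simp
    _ ≤ _ := h3

end Pool.Agent.Lib.MP_ba0fa5_ag.AA.H38
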