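import Pool.Agent.Lib.MP_ba0fa5_ag.AA.IfaceA

/-!
MP_ba0fa5_ag, Theorem A: module MASSLOW (lower bound for the mass).
-/

set_option autoImplicit false

namespace Pool.Agent.Lib.MP_ba0fa5_ag.AA.H38

open scoped Classical
open Finset Filter

theorem ws_mul {m n : ℕ} (hm : m ≠ 0) (hn : n ≠ 0) : ws (m * n) = ws m * ws n := by
  have h : ∀ k : ℕ, ws k = k.factorization.prod (fun l e => dl l ^ e) := by
    intro k
    unfold ws
    rw [Finsupp.prod, Nat.support_factorization]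
  rw [h, h, h, Nat.factorization_mul hm hn]
  exact Finsupp.prod_add_index' (fun _ => pow_zero _) (fun _ _ _ => pow_add _ _ _)

theorem dl_nonneg (l : ℕ) : 0 ≤ dl l := by
  unfold dl
  split_ifs <;> norm_num

theorem ws_nonneg (n : ℕ) : 0 ≤ ws n := by
  unfold ws
  exact prod_nonneg fun l _ => pow_nonneg (dl_nonneg l) _

theorem cls_pos {W a lo hi n : ℕ} (h : n ∈ cls W a lo hi) : n ≠ 0 := by
  unfold cls at h
  have := (mem_Ioc.1 (mem_filter.1 h).1).1
  omega

/-- the mass is a product of four sums -/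
theorem mass_eq (W c Z : ℕ) : mass W c Z =
    (∑ n ∈ cls W c Z (Z ^ 3), ws n / n) *
    ((∑ n ∈ cls W c (Z ^ 10) ((Z ^ 10) ^ 3), ws n / n) *
    ((∑ n ∈ cls W ((primorial W - 1) * c) (Z ^ 100) ((Z ^ 100) ^ 3), ws n / n) *
    (∑ n ∈ cls W 1 Z (Z ^ 3), ws n / n))) := by
  unfold mass BoxAll
  rw [sum_product, sum_mul]
  refine sum_congr rfl fun x h1 => ?_
  rw [sum_product, sum_mul, mul_sum]
  refine sum_congr rfl fun u h2 => ?_
  rw [sum_product, sum_mul, mul_sum, mul_sum]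
  refine sum_congr rfl fun v h3 => ?_
  rw [mul_sum, mul_sum, mul_sum]
  refine sum_congr rfl fun k h4 => ?_
  have e1 := cls_pos h1
  have e2 := cls_pos h2
  have e3 := cls_pos h3
  have e4 := cls_pos h4
  unfold HH
  simp only
  rw [ws_mul (by positivity) e4, ws_mul (by positivity) e3, ws_mul e1 e2]
  push_cast
  have f1 : (x : ℝ) ≠ 0 := by exact_mod_cast e1
  have f2 : (u : ℝ) ≠ 0 := by exact_mod_cast e2
  have f3 : (v : ℝ) ≠ 0 := by exact_mod_cast e3
  have f4 : (k : ℝ) ≠ 0 := by exact_mod_cast e4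
  field_simp

theorem masslow (hC : ClasslowStmt) (hV : VbndStmt) : MasslowStmt := by
  obtain ⟨c₁, hc₁, hC⟩ := hC
  obtain ⟨c₂, C₂, hc₂, -, hV⟩ := hV
  intro W hW R
  obtain ⟨Y₀, hY₀⟩ := hC W hW
  have hWr : (3 : ℝ) ≤ W := by exact_mod_cast hW
  have hlW : 0 < Real.log W := Real.log_pos (by linarith)
  set φ : ℝ := ((primorial W).totient : ℝ) with hφ
  have hφ0 : 0 < φ := by
    rw [hφ]
    exact_mod_cast Nat.totient_pos.mpr (primorial_pos W)
  set K : ℝ := c₂ * c₁ ^ 4 / (301 * φ ^ 4) with hK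
  have hK0 : 0 < K := by positivity
  have hlim : Tendsto (fun Z : ℕ => K * (Real.log Z / Real.log W) ^ (1 / 4 : ℝ)) atTop atTop := by
    apply Tendsto.const_mul_atTop hK0
    apply (tendsto_rpow_atTop (by norm_num : (0 : ℝ) < 1 / 4)).comp
    apply Tendsto.atTop_div_const hlW
    exact Real.tendsto_log_atTop.comp tendsto_natCast_atTop_atTop
  obtain ⟨Z₁, hZ₁⟩ := eventually_atTop.mp (hlim.eventually_ge_atTop R)
  refine ⟨max (max Y₀ Z₁) W, fun Z c hZ hc => ?_⟩
  have hZY : Y₀ ≤ Z := (le_max_left _ _).trans ((le_max_left _ _).trans hZ)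
  have hZZ : Z₁ ≤ Z := (le_max_right _ _).trans ((le_max_left _ _).trans hZ)
  have hZW : W ≤ Z := (le_max_right _ _).trans hZ
  have hZ1 : 1 ≤ Z := by omega
  have hZr : (3 : ℝ) ≤ Z := by exact_mod_cast hW.trans hZW
  have hlZ : 0 < Real.log Z := Real.log_pos (by linarith)
  refine (hZ₁ Z hZZ).trans ?_
  have hpow : ∀ k : ℕ, 1 ≤ k → Z ≤ Z ^ k := fun k hk => Nat.le_self_pow (by omega) Z
  set x : ℝ := Real.log Z / Real.log W with hx
  have hx0 : 0 < x := by positivity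
  have hSS : ∀ k : ℕ, 1 ≤ k → SS W Z ≤ SS W (Z ^ k) := by
    intro k hk
    unfold SS
    have hkr : (1 : ℝ) ≤ k := by exact_mod_cast hk
    have h1 : Real.log Z / Real.log W ≤ Real.log ((Z ^ k : ℕ) : ℝ) / Real.log W := by
      push_cast
      rw [Real.log_pow]
      apply div_le_div_of_nonneg_right _ hlW.le
      nlinarith
    apply div_le_div_of_nonneg_right _ hφ0.le
    exact Real.rpow_le_rpow hx0.le h1 (by norm_num)
  have hSS0 : 0 ≤ c₁ * SS W Z := by
    unfold SS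
    positivity
  have hc' : ((primorial W - 1) * c).Coprime (primorial W) := by
    apply Nat.Coprime.mul_left _ hc
    have hp := primorial_pos W
    rw [Nat.coprime_comm]
    have h2 : primorial W = (primorial W - 1) + 1 := by omega
    rw [h2, Nat.add_sub_cancel]
    simp
  have m1 := hY₀ Z c hZY hc
  have m2 : c₁ * SS W Z ≤ _ := (mul_le_mul_of_nonneg_left (hSS 10 (by norm_num)) hc₁.le).trans
    (hY₀ (Z ^ 10) c (hZY.trans (hpow 10 (by norm_num))) hc)
  have m3 : c₁ * SS W Z ≤ _ := (mul_le_mul_of_nonneg_left (hSS 100 (by norm_num)) hc₁.le).trans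
    (hY₀ (Z ^ 100) ((primorial W - 1) * c) (hZY.trans (hpow 100 (by norm_num))) hc')
  have m4 := hY₀ Z 1 hZY (Nat.coprime_one_left _)
  have hmass : (c₁ * SS W Z) ^ 4 ≤ mass W c Z := by
    rw [mass_eq]
    calc (c₁ * SS W Z) ^ 4 = (c₁ * SS W Z) * ((c₁ * SS W Z) * ((c₁ * SS W Z) *
          (c₁ * SS W Z))) := by ring
      _ ≤ _ := by
        have n1 : 0 ≤ ∑ n ∈ cls W c Z (Z ^ 3), ws n / n := hSS0.trans m1
        have n2 := hSS0.trans m2
        have n3 := hSS0.trans m3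
        gcongr
  have hVV := (hV W (zz Z) hW (hZW.trans (hpow 301 (by norm_num)))).1
  have hlog : Real.log ((zz Z : ℕ) : ℝ) = 301 * Real.log Z := by
    unfold zz
    push_cast
    rw [Real.log_pow]
    norm_num
  rw [hlog] at hVV
  have hV0 : 0 ≤ c₂ * Real.log W / (301 * Real.log Z) := by positivity
  have hkey : K * x ^ (1 / 4 : ℝ) = c₂ * Real.log W / (301 * Real.log Z) * (c₁ * SS W Z) ^ 4 := by
    have h1 : (x ^ (5 / 16 : ℝ)) ^ 4 = x * x ^ (1 / 4 : ℝ) := by
      rw [← Real.rpow_natCast, ← Real.rpow_mul hx0.le]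
      have : (5 / 16 : ℝ) * ((4 : ℕ) : ℝ) = 1 + 1 / 4 := by norm_num
      rw [this, Real.rpow_add hx0, Real.rpow_one]
    have h2 : (c₁ * SS W Z) ^ 4 = c₁ ^ 4 * (x * x ^ (1 / 4 : ℝ)) / φ ^ 4 := by
      unfold SS
      rw [← h1]
      ring
    rw [h2, hK]
    have h3 : c₂ * Real.log W / (301 * Real.log Z) = c₂ / (301 * x) := by
      rw [hx]
      field_simp
    rw [h3]
    field_simp
  rw [hkey]
  exact mul_le_mul hVV hmass (by positivity) (hV0.trans hVV)

end Pool.Agent.Lib.MP_ba0fa5_ag.AA.H38
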